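import Mathlib
import Pool.Agent.Lib.MP_145fc7_co.Core
import Pool.Agent.Lib.MP_145fc7_co.ReduceB

set_option autoImplicit false

namespace Pool.Agent.Results.MP_145fc7_co.MonomialMRD

/-- The `K`-linear map `x ↦ ∑ i, a i * x ^ (q ^ t i)` of `L`, where `q` is the size of `K`. -/
noncomputable def linPoly (K L : Type) [Field K] [Fintype K] [Field L] [Algebra K L] {k n : ℕ}
    (t : Fin k → ZMod n) (a : Fin k → L) : L →ₗ[K] L :=
  ∑ i, a i • (FiniteField.frobeniusAlgHom K L ^ (t i).val).toLinearMap

/-- The code spanned over `L` by the monomials `x ^ (q ^ t i)` is MRD: every nonzero member has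
rank at least `n - k + 1`, where `n` is the degree of `L` over `K`. -/
def IsMRD (K L : Type) [Field K] [Fintype K] [Field L] [Algebra K L] {k n : ℕ}
    (t : Fin k → ZMod n) : Prop :=
  ∀ a : Fin k → L, a ≠ 0 →
    Module.finrank K L + 1 ≤ Module.finrank K (LinearMap.range (linPoly K L t a)) + k

theorem linPoly_apply (K L : Type) [Field K] [Fintype K] [Field L] [Algebra K L] {k n : ℕ}
    (t : Fin k → ZMod n) (a : Fin k → L) (x : L) :
    linPoly K L t a x = ∑ i, a i * x ^ (Fintype.card K ^ (t i).val) := by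
  simp [linPoly, AlgHom.coe_pow, FiniteField.coe_frobeniusAlgHom, pow_iterate]

theorem result : ∀ k : ℕ, 0 < k → ∃ c : ℕ, ∀ (K L : Type) [Field K] [Fintype K] [Field L]
    [Algebra K L] (n : ℕ), Module.finrank K L = n → c < n →
    ∀ t : Fin k → ZMod n, Function.Injective t → IsMRD K L t →
    ∃ s d : ZMod n, Set.range t = Set.range (fun i : Fin k => s + ((i : ℕ) : ZMod n) * d) := by
  intro k hk
  obtain ⟨c, hc⟩ := Pool.Agent.Lib.MP_145fc7_co.main_of_core
    Pool.Agent.Lib.MP_145fc7_co.curveCore k hk
  refine ⟨c, fun K L _ _ _ _ n hn hcn t ht hM => ?_⟩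
  obtain ⟨p, hp, e, hpp, he⟩ := FiniteField.card' K
  have : Fact p.Prime := ⟨hpp⟩
  have hfin : Module.Finite K L := Module.finite_of_finrank_pos (by omega)
  have : Finite L := Module.finite_of_finite K
  have := Fintype.ofFinite L
  have := Fintype.ofFinite (GaloisField p (e * n))
  have hen : (e : ℕ) * n ≠ 0 := Nat.mul_ne_zero e.pos.ne' (by omega)
  have hcard : Fintype.card (GaloisField p (e * n)) = Fintype.card L := by
    rw [← Nat.card_eq_fintype_card, GaloisField.card p _ hen, Module.card_eq_pow_finrank (K := K),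
      hn, he, pow_mul]
  let φ := FiniteField.ringEquivOfCardEq hcard
  refine hc p e e.pos n hcn t ht (fun a ha => ?_)
  have h1 := hM (fun i => φ (a i)) (fun h => ha (funext fun i => by
    simpa using congrFun h i))
  have h2 := LinearMap.finrank_range_add_finrank_ker (linPoly K L t (fun i => φ (a i)))
  have h3 : Nat.card {x : GaloisField p (e * n) // ∑ i, a i * x ^ ((p ^ (e : ℕ)) ^ (t i).val) = 0} =
      Nat.card (LinearMap.ker (linPoly K L t (fun i => φ (a i)))) := by
    refine Nat.card_congr (φ.toEquiv.subtypeEquiv (fun x => ?_))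
    rw [LinearMap.mem_ker, linPoly_apply, he, ← map_eq_zero_iff φ φ.injective]
    simp
  rw [h3, Module.natCard_eq_pow_finrank (K := K), Nat.card_eq_fintype_card, he]
  exact Nat.pow_le_pow_right (pow_pos hpp.pos _) (by omega)

end Pool.Agent.Results.MP_145fc7_co.MonomialMRD
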