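import Mathlib
import Pool.Agent.Lib.MP_145fc7_co.Tri.Lower

/-!
The largest kernel in a code spanned by three monomials, attained by a trinomial with nonzero
coefficients.
-/

namespace Pool.Agent.Results.MP_145fc7_co.Trinomials

open Pool.Agent.Lib.MP_145fc7_co.Tri

theorem result (w : ℕ) : ∃ c : ℕ, ∀ (K L : Type) [Field K] [Fintype K] [Field L] [Algebra K L]
    (n s i : ℕ), Module.finrank K L = n → c < n → Nat.Coprime s n → 0 < i → i < w →
    (∀ a b d : L, (a ≠ 0 ∨ b ≠ 0 ∨ d ≠ 0) →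
      Nat.card {x : L // d * x ^ (Fintype.card K ^ (s * w)) +
        b * x ^ (Fintype.card K ^ (s * i)) + a * x = 0} ≤
      Fintype.card K ^ (Nat.gcd (Nat.gcd i w) n * (w / Nat.gcd i w))) ∧
    ∃ a b : L, a ≠ 0 ∧ b ≠ 0 ∧
      Nat.card {x : L // x ^ (Fintype.card K ^ (s * w)) +
        b * x ^ (Fintype.card K ^ (s * i)) + a * x = 0} =
      Fintype.card K ^ (Nat.gcd (Nat.gcd i w) n * (w / Nat.gcd i w)) := by
  choose c hc using lower
  refine ⟨w * (Finset.range (w + 1)).sup c, fun K L _ _ _ _ n s i hn hcn hs h0 hi => ?_⟩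
  obtain ⟨p, hp, f, hpp, he⟩ := FiniteField.card' K
  have : Fact p.Prime := ⟨hpp⟩
  have n0 : 0 < n := by omega
  have hfin : Module.Finite K L := Module.finite_of_finrank_pos (by omega)
  have : Finite L := Module.finite_of_finite K
  have := Fintype.ofFinite L
  have : CharP L p := charP_of_injective_algebraMap (algebraMap K L).injective p
  have hcard : Fintype.card L = (p ^ (f : ℕ)) ^ n := by
    rw [Module.card_eq_pow_finrank (K := K), hn, he]
  rw [he]
  have f0 : 0 < (f : ℕ) := f.pos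
  generalize (f : ℕ) = f at *
  have hq : 1 < p ^ f := Nat.one_lt_pow f0.ne' hpp.one_lt
  obtain ⟨g, i', w', g0, hco, e1, e2⟩ := Nat.exists_coprime' (Nat.gcd_pos_of_pos_left w h0)
  have eg : Nat.gcd i w = g := by rw [e1, e2, Nat.gcd_mul_right, hco.gcd_eq_one, one_mul]
  have ew : w / g = w' := by rw [e2, Nat.mul_div_cancel _ g0]
  rw [eg, ew]
  obtain ⟨h, g', n', h0', hco', e3, e4⟩ := Nat.exists_coprime' (Nat.gcd_pos_of_pos_left n g0)
  have eh : Nat.gcd g n = h := by rw [e3, e4, Nat.gcd_mul_right, hco'.gcd_eq_one, one_mul]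
  rw [eh]
  have i0 : 0 < i' := Nat.pos_of_mul_pos_right (e1 ▸ h0)
  have hi' : i' < w' := lt_of_mul_lt_mul_right (e1 ▸ e2 ▸ hi) (Nat.zero_le g)
  have hw' : w' ≤ w := e2 ▸ Nat.le_mul_of_pos_right _ g0
  have hgw : g ≤ w := e2 ▸ Nat.le_mul_of_pos_left _ (i0.trans hi')
  have hhg : h ≤ g := eh ▸ Nat.gcd_le_left _ g0
  let φ := iterateFrobenius L p (f * (s * g))
  have hφ : ∀ j x, φ^[j] x = x ^ ((p ^ f) ^ (s * (j * g))) := fun j x => by
    rw [show (φ : L → L) = fun x => x ^ (p ^ (f * (s * g))) from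
      funext fun x => iterateFrobenius_def .., pow_iterate]
    congr 1
    ring
  have hF : Nat.card {x : L // φ x = x} ≤ (p ^ f) ^ h := by
    have := card_fix hq n0 hcard (s * g)
    rw [Nat.Coprime.gcd_mul_left_cancel g hs, eh] at this
    refine le_trans (le_of_eq (Nat.card_congr (Equiv.subtypeEquivRight fun x => ?_))) this
    rw [iterateFrobenius_def, pow_mul]
  have hP : ∀ j, Nat.card {x : L // φ x = x} ^ j ≤ (p ^ f) ^ (h * j) := fun j => by
    rw [pow_mul]; exact Nat.pow_le_pow_left hF j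
  have up : ∀ a b d : L, (a ≠ 0 ∨ b ≠ 0 ∨ d ≠ 0) →
      Nat.card {x : L // d * x ^ ((p ^ f) ^ (s * w)) + b * x ^ ((p ^ f) ^ (s * i)) + a * x = 0} ≤
      (p ^ f) ^ (h * w') := fun a b d hne => by
    have := (tri_upper φ i0 hi' a b d hne).trans (hP w')
    simpa only [hφ, ← e1, ← e2] using this
  refine ⟨up, ?_⟩
  obtain ⟨A, B, hAB⟩ := hc w' L p (f * h) n' (s * g') i' (Nat.mul_pos f0 h0')
    (by rw [hcard, e4]; ring) (by
      have a1 : c w' ≤ (Finset.range (w + 1)).sup c :=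
        Finset.le_sup (f := c) (Finset.mem_range.2 (by omega))
      have a2 : n ≤ w * n' := by rw [e4, mul_comm]; exact Nat.mul_le_mul_right _ (by omega)
      exact a1.trans_lt (lt_of_mul_lt_mul_left (hcn.trans_le a2) (Nat.zero_le w)))
    (Nat.Coprime.mul_left (Nat.Coprime.coprime_dvd_right ⟨h, e4⟩ hs) hco') i0 hi'
    (by rw [hco.gcd_eq_one]; exact one_dvd _)
  have x1 : (p ^ (f * h)) ^ w' = (p ^ f) ^ (h * w') := by ring
  have x2 : (p ^ (f * h)) ^ (s * g' * i') = (p ^ f) ^ (s * (i' * g)) := by rw [e3]; ring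
  have x3 : (p ^ (f * h)) ^ (s * g' * w') = (p ^ f) ^ (s * (w' * g)) := by rw [e3]; ring
  rw [x1, x2, x3] at hAB
  have low : ∀ j, j < w' → ¬ (p ^ f) ^ (h * w') ≤ Nat.card {x : L // φ x = x} ^ j := fun j hj a =>
    (Nat.mul_lt_mul_of_pos_left hj h0').not_ge ((Nat.pow_le_pow_iff_right hq).1 (a.trans (hP j)))
  have hB : B ≠ 0 := by
    rintro rfl
    refine low i' hi' (hAB.trans (le_trans (le_of_eq (Nat.card_congr
      (Equiv.subtypeEquivRight fun x => ?_))) (bin_upper φ i0 (-A) 1 (Or.inr one_ne_zero))))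
    rw [hφ, zero_mul, add_zero, one_mul, neg_mul, add_neg_eq_zero]
  have hA : A ≠ 0 := by
    rintro rfl
    have hbij : Function.Bijective φ^[i'] :=
      Finite.injective_iff_bijective.mp (φ.injective.iterate _)
    refine low (w' - i') (by omega) (hAB.trans (le_trans (le_of_eq (Nat.card_congr
      ((Equiv.ofBijective _ hbij).subtypeEquiv fun x => ?_)))
      (bin_upper φ (by omega : 0 < w' - i') (-1) B (Or.inr hB))))
    rw [Equiv.ofBijective_apply, ← Function.iterate_add_apply, Nat.sub_add_cancel hi'.le, hφ, hφ,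
      zero_mul, zero_add, neg_one_mul, add_neg_eq_zero, eq_comm]
  refine ⟨B⁻¹ * A, -B⁻¹, mul_ne_zero (inv_ne_zero hB) hA, neg_ne_zero.2 (inv_ne_zero hB),
    le_antisymm (by simpa using up (B⁻¹ * A) (-B⁻¹) 1 (Or.inr (Or.inr one_ne_zero)))
      (hAB.trans (le_of_eq (Nat.card_congr (Equiv.subtypeEquivRight fun x => ?_))))⟩
  rw [← e1, ← e2]
  constructor
  · intro hx
    rw [hx]
    field_simp
    ring
  · intro hx
    have := congrArg (B * ·) hx
    simp only [mul_add, neg_mul, mul_neg, ← mul_assoc, mul_inv_cancel₀ hB, one_mul,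
      mul_zero] at this
    linear_combination -this

end Pool.Agent.Results.MP_145fc7_co.Trinomials
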